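import Pool.Agent.W606.PS.Stm

/-!
Project PS: a partition of a triangulated sphere into three connected sets has 0 or 2 rainbow
triangles.
-/

set_option autoImplicit false

open Set Relation

namespace Pool.Agent.W370.PS

open Pool.Agent.W606.PS

theorem inc_iff {X E T : Type} (K : Cx X E T) (t : T) (i : Fin 3) :
    (K.e (K.te t i) 0 = K.tv t (i + 1) ∧ K.e (K.te t i) 1 = K.tv t (i + 2)) ∨
    (K.e (K.te t i) 0 = K.tv t (i + 2) ∧ K.e (K.te t i) 1 = K.tv t (i + 1)) := by
  have h := K.inc t i
  rw [Sym2.eq_iff] at h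
  exact h

theorem te_mem {X E T : Type} (K : Cx X E T) {Z : Set X} {t : T} (ht : ∀ j, K.tv t j ∈ Z)
    (i : Fin 3) : K.e (K.te t i) 0 ∈ Z ∧ K.e (K.te t i) 1 ∈ Z := by
  rcases inc_iff K t i with ⟨h1, h2⟩ | ⟨h1, h2⟩
  · rw [h1, h2]; exact ⟨ht _, ht _⟩
  · rw [h1, h2]; exact ⟨ht _, ht _⟩

theorem z2_eq (p q : ZMod 2) (h : p + q = 0) : p = q := by
  revert p q
  decide

theorem z2_one (q : ZMod 2) (h : q ≠ 0) : (1 : ZMod 2) = q := by
  revert q
  decide

theorem sum_dite_sub {T : Type} [Fintype T] (P : T → Prop) [DecidablePred P]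
    (f : {t : T // P t} → ZMod 2) :
    ∑ t : T, (if h : P t then f ⟨t, h⟩ else 0) = ∑ t : {t : T // P t}, f t := by
  have h1 : ∑ t : {t : T // P t}, f t =
      ∑ t : {t : T // P t}, (fun s : T => if h : P s then f ⟨s, h⟩ else 0) t.1 := by
    apply Finset.sum_congr rfl
    intro t _
    simp [t.2]
  rw [h1, ← Finset.sum_subtype (Finset.univ.filter P) (by simp)
    (fun s : T => if h : P s then f ⟨s, h⟩ else 0)]
  symm
  apply Finset.sum_subset (Finset.filter_subset _ _)
  intro t _ ht
  rw [Finset.mem_filter] at ht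
  have : ¬ P t := fun h => ht ⟨Finset.mem_univ _, h⟩
  simp [this]

section
variable {X E T : Type} [Fintype X] [Fintype E] [Fintype T]

open Classical in
/-- triangle / edge incidence inside `Z` -/
noncomputable def MM (K : Cx X E T) (Z : Set X) :
    Matrix {t : T // ∀ j, K.tv t j ∈ Z} {a : E // K.e a 0 ∈ Z ∧ K.e a 1 ∈ Z} (ZMod 2) :=
  Matrix.of fun t a => ∑ j : Fin 3, if K.te t.1 j = a.1 then 1 else 0

open Classical in
/-- edge / vertex incidence inside `Z` -/
noncomputable def NN (K : Cx X E T) (Z : Set X) :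
    Matrix {a : E // K.e a 0 ∈ Z ∧ K.e a 1 ∈ Z} {x : X // x ∈ Z} (ZMod 2) :=
  Matrix.of fun a x => (if K.e a.1 0 = x.1 then 1 else 0) + (if K.e a.1 1 = x.1 then 1 else 0)

open Classical in
theorem mul_zero_MN (K : Cx X E T) (Z : Set X) : MM K Z * NN K Z = 0 := by
  ext t x
  rw [Matrix.mul_apply, Matrix.zero_apply]
  have h1 : ∀ a : {a : E // K.e a 0 ∈ Z ∧ K.e a 1 ∈ Z}, MM K Z t a * NN K Z a x =
      ∑ j : Fin 3, if (⟨K.te t.1 j, te_mem K t.2 j⟩ : {a : E // K.e a 0 ∈ Z ∧ K.e a 1 ∈ Z}) = a
        then NN K Z a x else 0 := by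
    intro a
    have : MM K Z t a = ∑ j : Fin 3, if K.te t.1 j = a.1 then (1 : ZMod 2) else 0 := rfl
    rw [this, Finset.sum_mul]
    apply Finset.sum_congr rfl
    intro j _
    by_cases h : K.te t.1 j = a.1
    · rw [if_pos h, one_mul, if_pos (Subtype.ext h)]
    · rw [if_neg h, zero_mul, if_neg (fun h' => h (congrArg Subtype.val h'))]
  rw [Finset.sum_congr rfl (fun a _ => h1 a), Finset.sum_comm]
  have h2 : ∀ j : Fin 3, (∑ a, if (⟨K.te t.1 j, te_mem K t.2 j⟩ :
      {a : E // K.e a 0 ∈ Z ∧ K.e a 1 ∈ Z}) = a then NN K Z a x else 0) =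
      (if K.tv t.1 (j + 1) = x.1 then 1 else 0) + (if K.tv t.1 (j + 2) = x.1 then 1 else 0) := by
    intro j
    rw [Finset.sum_ite_eq, if_pos (Finset.mem_univ _)]
    change (if K.e (K.te t.1 j) 0 = x.1 then (1 : ZMod 2) else 0) +
      (if K.e (K.te t.1 j) 1 = x.1 then 1 else 0) = _
    rcases inc_iff K t.1 j with ⟨h3, h4⟩ | ⟨h3, h4⟩
    · rw [h3, h4]
    · rw [h3, h4, add_comm]
  rw [Finset.sum_congr rfl (fun j _ => h2 j), Fin.sum_univ_three]
  have e1 : (0 : Fin 3) + 1 = 1 := rfl
  have e2 : (0 : Fin 3) + 2 = 2 := rfl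
  have e3 : (1 : Fin 3) + 1 = 2 := rfl
  have e4 : (1 : Fin 3) + 2 = 0 := rfl
  have e5 : (2 : Fin 3) + 1 = 0 := rfl
  have e6 : (2 : Fin 3) + 2 = 1 := rfl
  rw [e1, e2, e3, e4, e5, e6]
  generalize (if K.tv t.1 0 = x.1 then (1 : ZMod 2) else 0) = p0
  generalize (if K.tv t.1 1 = x.1 then (1 : ZMod 2) else 0) = p1
  generalize (if K.tv t.1 2 = x.1 then (1 : ZMod 2) else 0) = p2
  revert p0 p1 p2
  decide

open Classical in
theorem rank_N (K : Cx X E T) {Z : Set X} (hZ : Con K.gr Z) :
    Fintype.card {x : X // x ∈ Z} ≤ (NN K Z).rank + 1 := by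
  have h1 := LinearMap.finrank_range_add_finrank_ker (NN K Z).mulVecLin
  rw [Module.finrank_fintype_fun_eq_card] at h1
  have h2 : LinearMap.ker (NN K Z).mulVecLin ≤
      Submodule.span (ZMod 2) {(fun _ => 1 : {x : X // x ∈ Z} → ZMod 2)} := by
    intro b hb
    rw [LinearMap.mem_ker, Matrix.mulVecLin_apply] at hb
    set B : X → ZMod 2 := fun x => if h : x ∈ Z then b ⟨x, h⟩ else 0 with hB
    have hB1 : ∀ x : {x : X // x ∈ Z}, B x.1 = b x := by
      intro x
      rw [hB]
      simp [x.2]
    have hedge : ∀ a : E, K.e a 0 ∈ Z → K.e a 1 ∈ Z → B (K.e a 0) = B (K.e a 1) := by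
      intro a h3 h4
      have h5 := congrFun hb ⟨a, h3, h4⟩
      rw [Matrix.mulVec, Pi.zero_apply] at h5
      unfold dotProduct at h5
      have h6 : ∀ x : {x : X // x ∈ Z}, NN K Z ⟨a, h3, h4⟩ x * b x =
          (if (⟨K.e a 0, h3⟩ : {x : X // x ∈ Z}) = x then b x else 0) +
          (if (⟨K.e a 1, h4⟩ : {x : X // x ∈ Z}) = x then b x else 0) := by
        intro x
        have : NN K Z ⟨a, h3, h4⟩ x = (if K.e a 0 = x.1 then (1 : ZMod 2) else 0) +
          (if K.e a 1 = x.1 then 1 else 0) := rfl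
        rw [this, add_mul]
        congr 1
        · by_cases h : K.e a 0 = x.1
          · rw [if_pos h, one_mul, if_pos (Subtype.ext h)]
          · rw [if_neg h, zero_mul, if_neg (fun h' => h (congrArg Subtype.val h'))]
        · by_cases h : K.e a 1 = x.1
          · rw [if_pos h, one_mul, if_pos (Subtype.ext h)]
          · rw [if_neg h, zero_mul, if_neg (fun h' => h (congrArg Subtype.val h'))]
      rw [Finset.sum_congr rfl (fun x _ => h6 x), Finset.sum_add_distrib, Finset.sum_ite_eq,
        Finset.sum_ite_eq, if_pos (Finset.mem_univ _), if_pos (Finset.mem_univ _)] at h5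
      rw [hB1 ⟨K.e a 0, h3⟩, hB1 ⟨K.e a 1, h4⟩]
      exact z2_eq _ _ h5
    have hpath : ∀ x ∈ Z, ∀ y ∈ Z, B x = B y := by
      intro x hx y hy
      have h3 := hZ.2 x hx y hy
      clear hy
      induction h3 with
      | refl => rfl
      | tail _ h4 ih =>
        rw [ih]
        obtain ⟨h5, h6, h7⟩ := h4
        unfold Cx.gr at h5
        rw [SimpleGraph.fromRel_adj] at h5
        rcases h5.2 with ⟨a, h8, h9⟩ | ⟨a, h8, h9⟩
        · rw [← h8, ← h9]
          exact hedge a (by rw [h8]; exact h6) (by rw [h9]; exact h7)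
        · rw [← h8, ← h9]
          exact (hedge a (by rw [h8]; exact h7) (by rw [h9]; exact h6)).symm
    obtain ⟨x0, hx0⟩ := hZ.1
    rw [Submodule.mem_span_singleton]
    refine ⟨B x0, ?_⟩
    ext x
    rw [Pi.smul_apply, smul_eq_mul, mul_one, ← hB1 x]
    exact hpath x0 hx0 x.1 x.2
  have h3 : Module.finrank (ZMod 2) (LinearMap.ker (NN K Z).mulVecLin) ≤ 1 := by
    refine (Submodule.finrank_mono h2).trans ?_
    exact (finrank_span_le_card _).trans (by simp)
  have h4 : (NN K Z).rank = Module.finrank (ZMod 2) (LinearMap.range (NN K Z).mulVecLin) := rfl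
  omega

open Classical in
theorem rank_M (K : Cx X E T) (hK : K.IsSphere) {Z : Set X} (hne : ∃ x, x ∉ Z)
    (hne' : Z.Nonempty) :
    Fintype.card {t : T // ∀ j, K.tv t j ∈ Z} ≤ (MM K Z).rank := by
  rw [← Matrix.rank_transpose]
  have hinj : Function.Injective (MM K Z).transpose.mulVecLin := by
    rw [← LinearMap.ker_eq_bot, LinearMap.ker_eq_bot']
    intro y hy
    rw [Matrix.mulVecLin_apply] at hy
    set A : Set T := {t | ∃ h : ∀ j, K.tv t j ∈ Z, y ⟨t, h⟩ ≠ 0} with hA
    have hev : ∀ a : E, Even {p : T × Fin 3 | p.1 ∈ A ∧ K.te p.1 p.2 = a}.ncard := by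
      intro a
      have hcard : {p : T × Fin 3 | p.1 ∈ A ∧ K.te p.1 p.2 = a}.ncard =
          (Finset.univ.filter (fun p : T × Fin 3 => p.1 ∈ A ∧ K.te p.1 p.2 = a)).card := by
        rw [← Set.ncard_coe_finset]
        congr 1
        ext p
        simp
      rw [hcard, ← ZMod.natCast_eq_zero_iff_even, Finset.card_filter]
      push_cast
      rw [Fintype.sum_prod_type]
      by_cases ha : K.e a 0 ∈ Z ∧ K.e a 1 ∈ Z
      · have h1 := congrFun hy ⟨a, ha⟩
        rw [Matrix.mulVec, Pi.zero_apply] at h1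
        unfold dotProduct at h1
        have h2 : ∀ t : T, (∑ j : Fin 3, if t ∈ A ∧ K.te t j = a then (1 : ZMod 2) else 0) =
            if h : ∀ j, K.tv t j ∈ Z then (MM K Z).transpose ⟨a, ha⟩ ⟨t, h⟩ * y ⟨t, h⟩ else 0 := by
          intro t
          by_cases h : ∀ j, K.tv t j ∈ Z
          · rw [dif_pos h]
            have h3 : (MM K Z).transpose ⟨a, ha⟩ ⟨t, h⟩ =
                ∑ j : Fin 3, if K.te t j = a then (1 : ZMod 2) else 0 := rfl
            rw [h3, Finset.sum_mul]
            apply Finset.sum_congr rfl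
            intro j _
            by_cases h4 : K.te t j = a
            · rw [if_pos h4, one_mul]
              by_cases h5 : y ⟨t, h⟩ = 0
              · rw [h5, if_neg]
                rintro ⟨⟨_, h6⟩, _⟩
                exact h6 h5
              · rw [if_pos ⟨⟨h, h5⟩, h4⟩]
                exact z2_one _ h5
            · rw [if_neg h4, zero_mul, if_neg (fun h' => h4 h'.2)]
          · rw [dif_neg h]
            apply Finset.sum_eq_zero
            intro j _
            rw [if_neg]
            rintro ⟨⟨h5, _⟩, _⟩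
            exact h h5
        refine (Finset.sum_congr rfl (fun t _ => h2 t)).trans ?_
        rw [sum_dite_sub (fun t : T => ∀ j, K.tv t j ∈ Z)
          (fun t => (MM K Z).transpose ⟨a, ha⟩ t * y t)]
        exact h1
      · apply Finset.sum_eq_zero
        intro t _
        apply Finset.sum_eq_zero
        intro j _
        rw [if_neg]
        rintro ⟨⟨h1, _⟩, h3⟩
        apply ha
        rw [← h3]
        exact te_mem K h1 j
    rcases hK.strong A hev with h1 | h1
    · ext t
      by_contra h2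
      have : t.1 ∈ A := ⟨t.2, h2⟩
      rw [h1] at this
      exact this
    · exfalso
      obtain ⟨x, hx⟩ := hne
      obtain ⟨z, hz⟩ := hne'
      obtain ⟨u, v, -, -, hu, hv, huv⟩ := hK.conn.exit (A := {x}) (mem_univ x) rfl
        (mem_univ z) (fun h => hx (by rw [← (h : z = x)]; exact hz))
      rw [mem_singleton_iff] at hu
      subst hu
      unfold Cx.gr at huv
      rw [SimpleGraph.fromRel_adj] at huv
      have hex : ∃ a, K.e a 0 = u ∨ K.e a 1 = u := by
        rcases huv.2 with ⟨a, h8, h9⟩ | ⟨a, h8, h9⟩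
        · exact ⟨a, Or.inl h8⟩
        · exact ⟨a, Or.inr h9⟩
      obtain ⟨a, ha⟩ := hex
      have h2 := hK.two a
      have h3 : {p : T × Fin 3 | K.te p.1 p.2 = a}.Nonempty := by
        apply Set.nonempty_of_ncard_ne_zero
        rw [h2]
        decide
      obtain ⟨⟨t, j⟩, h4⟩ := h3
      have h4' : K.te t j = a := h4
      have h5 : t ∈ A := by rw [h1]; exact mem_univ _
      obtain ⟨h6, _⟩ := h5
      have h7 := te_mem K h6 j
      rw [h4'] at h7
      rcases ha with h8 | h8
      · exact hx (by rw [← h8]; exact h7.1)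
      · exact hx (by rw [← h8]; exact h7.2)
  have h1 := LinearMap.finrank_range_of_inj hinj
  rw [Module.finrank_fintype_fun_eq_card] at h1
  exact le_of_eq h1.symm

open Classical in
theorem part (K : Cx X E T) (hK : K.IsSphere) {Z : Set X} (hZ : Con K.gr Z) (hne : ∃ x, x ∉ Z) :
    Fintype.card {x : X // x ∈ Z} + Fintype.card {t : T // ∀ j, K.tv t j ∈ Z} ≤
      Fintype.card {a : E // K.e a 0 ∈ Z ∧ K.e a 1 ∈ Z} + 1 := by
  have h1 := rank_N K hZ
  have h2 := rank_M K hK hne hZ.1
  have h3 := Matrix.rank_add_rank_le_card_of_mul_eq_zero (mul_zero_MN K Z)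
  omega

end

/-! ### counting -/

/-- number of edges of a triangle with ends in different classes -/
def wt (c : Fin 3 → Fin 3) : ℕ := ∑ j : Fin 3, if c (j + 1) = c (j + 2) then 0 else 1

/-- one class -/
def mo (c : Fin 3 → Fin 3) : ℕ := ∑ i : Fin 3, if (∀ j, c j = i) then 1 else 0

/-- three classes -/
def ra (c : Fin 3 → Fin 3) : ℕ := if (c 0 ≠ c 1 ∧ c 1 ≠ c 2 ∧ c 0 ≠ c 2) then 1 else 0

theorem wt_eq : ∀ c : Fin 3 → Fin 3, ∃ b : ℕ, mo c + b + ra c = 1 ∧ wt c = 2 * b + 3 * ra c := by
  have h : ∀ x y z : Fin 3, ∃ b : ℕ, b < 2 ∧ mo ![x, y, z] + b + ra ![x, y, z] = 1 ∧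
      wt ![x, y, z] = 2 * b + 3 * ra ![x, y, z] := by
    decide
  intro c
  obtain ⟨b, -, h1, h2⟩ := h (c 0) (c 1) (c 2)
  have e : c = ![c 0, c 1, c 2] := by
    ext j
    fin_cases j <;> rfl
  rw [← e] at h1 h2
  exact ⟨b, h1, h2⟩

theorem pair_eq : ∀ x y : Fin 3, (∑ i : Fin 3, if (x = i ∧ y = i) then 1 else 0) +
    (if x = y then 0 else 1) = 1 := by
  decide

theorem add_one_ne3 : ∀ i : Fin 3, i + 1 ≠ i := by
  decide

theorem one_eq : ∀ x : Fin 3, (∑ i : Fin 3, if x = i then 1 else 0) = 1 := by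
  decide

theorem main : S_FT2 := by
  classical
  intro X E T _ _ _ K hK Z hZ hdisj hcov
  have hex : ∀ x : X, ∃ i, x ∈ Z i := by
    intro x
    have : x ∈ ⋃ i, Z i := by rw [hcov]; exact mem_univ x
    exact mem_iUnion.1 this
  choose cl hcl using hex
  have hcl' : ∀ x i, x ∈ Z i ↔ cl x = i := by
    intro x i
    constructor
    · intro hx
      by_contra hne
      exact Set.disjoint_left.1 (hdisj (cl x) i hne) (hcl x) hx
    · rintro rfl
      exact hcl x
  have hne : ∀ i, ∃ x, x ∉ Z i := by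
    intro i
    obtain ⟨x, hx⟩ := (hZ (i + 1)).1
    refine ⟨x, fun h => ?_⟩
    rw [hcl'] at hx h
    rw [hx] at h
    exact add_one_ne3 i h
  -- the three inequalities
  have hpart := fun i => part K hK (hZ i) (hne i)
  have hX : ∀ i, Fintype.card {x : X // x ∈ Z i} = ∑ x : X, if cl x = i then 1 else 0 := by
    intro i
    rw [Fintype.card_subtype, Finset.card_filter]
    apply Finset.sum_congr rfl
    intro x _
    simp only [hcl']
  have hT : ∀ i, Fintype.card {t : T // ∀ j, K.tv t j ∈ Z i} =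
      ∑ t : T, if (∀ j, cl (K.tv t j) = i) then 1 else 0 := by
    intro i
    rw [Fintype.card_subtype, Finset.card_filter]
    apply Finset.sum_congr rfl
    intro t _
    simp only [hcl']
  have hE : ∀ i, Fintype.card {a : E // K.e a 0 ∈ Z i ∧ K.e a 1 ∈ Z i} =
      ∑ a : E, if (cl (K.e a 0) = i ∧ cl (K.e a 1) = i) then 1 else 0 := by
    intro i
    rw [Fintype.card_subtype, Finset.card_filter]
    apply Finset.sum_congr rfl
    intro a _
    simp only [hcl']
  -- totals
  have hXs : Fintype.card X = ∑ i : Fin 3, ∑ x : X, if cl x = i then 1 else 0 := by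
    rw [Finset.sum_comm, ← Finset.card_univ, Finset.card_eq_sum_ones]
    apply Finset.sum_congr rfl
    intro x _
    exact (one_eq (cl x)).symm
  have hEs : Fintype.card E = (∑ i : Fin 3, ∑ a : E,
      if (cl (K.e a 0) = i ∧ cl (K.e a 1) = i) then 1 else 0) +
      ∑ a : E, if cl (K.e a 0) = cl (K.e a 1) then 0 else 1 := by
    rw [Finset.sum_comm, ← Finset.sum_add_distrib, ← Finset.card_univ, Finset.card_eq_sum_ones]
    apply Finset.sum_congr rfl
    intro a _
    exact (pair_eq _ _).symm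
  choose b hb1 hb2 using wt_eq
  have hTs : Fintype.card T = (∑ i : Fin 3, ∑ t : T,
      if (∀ j, cl (K.tv t j) = i) then 1 else 0) + ∑ t : T, b (fun j => cl (K.tv t j)) +
      ∑ t : T, ra (fun j => cl (K.tv t j)) := by
    rw [Finset.sum_comm, ← Finset.sum_add_distrib, ← Finset.sum_add_distrib, ← Finset.card_univ,
      Finset.card_eq_sum_ones]
    apply Finset.sum_congr rfl
    intro t _
    exact (hb1 (fun j => cl (K.tv t j))).symm
  have hW : ∑ t : T, wt (fun j => cl (K.tv t j)) = 2 * (∑ t : T, b (fun j => cl (K.tv t j))) +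
      3 * ∑ t : T, ra (fun j => cl (K.tv t j)) := by
    rw [Finset.mul_sum, Finset.mul_sum, ← Finset.sum_add_distrib]
    apply Finset.sum_congr rfl
    intro t _
    exact hb2 _
  -- double counting
  have hW2 : ∑ t : T, wt (fun j => cl (K.tv t j)) =
      2 * ∑ a : E, if cl (K.e a 0) = cl (K.e a 1) then 0 else 1 := by
    have h1 : ∑ t : T, wt (fun j => cl (K.tv t j)) = ∑ p : T × Fin 3,
        (fun a : E => if cl (K.e a 0) = cl (K.e a 1) then 0 else 1) (K.te p.1 p.2) := by
      rw [Fintype.sum_prod_type]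
      apply Finset.sum_congr rfl
      intro t _
      unfold wt
      apply Finset.sum_congr rfl
      intro j _
      rcases inc_iff K t j with ⟨h3, h4⟩ | ⟨h3, h4⟩
      · simp only [h3, h4]
      · simp only [h3, h4]
        by_cases h5 : cl (K.tv t (j + 1)) = cl (K.tv t (j + 2))
        · rw [if_pos h5, if_pos h5.symm]
        · rw [if_neg h5, if_neg (fun h => h5 h.symm)]
    rw [h1, ← Finset.sum_fiberwise' Finset.univ (fun p : T × Fin 3 => K.te p.1 p.2)
      (fun a : E => if cl (K.e a 0) = cl (K.e a 1) then 0 else 1), Finset.mul_sum]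
    apply Finset.sum_congr rfl
    intro a _
    have h2 : (Finset.univ.filter (fun p : T × Fin 3 => K.te p.1 p.2 = a)).card = 2 := by
      rw [← hK.two a, ← Set.ncard_coe_finset]
      congr 1
      ext p
      simp
    rw [Finset.sum_const, h2, smul_eq_mul]
  -- rainbow triangles
  have hR : {t | Rain K.tv Z t}.ncard = ∑ t : T, ra (fun j => cl (K.tv t j)) := by
    have h1 : ∀ t, Rain K.tv Z t ↔ (cl (K.tv t 0) ≠ cl (K.tv t 1) ∧ cl (K.tv t 1) ≠ cl (K.tv t 2) ∧
        cl (K.tv t 0) ≠ cl (K.tv t 2)) := by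
      intro t
      constructor
      · rintro ⟨s, hs⟩
        have hinj : Function.Injective (fun j => cl (K.tv t j)) := by
          intro x y hxy
          have hx := (hcl' _ _).1 (hs (s.symm x))
          have hy := (hcl' _ _).1 (hs (s.symm y))
          rw [Equiv.apply_symm_apply] at hx hy
          have hxy' : cl (K.tv t x) = cl (K.tv t y) := hxy
          rw [hx, hy] at hxy'
          exact s.symm.injective hxy'
        exact ⟨fun h => absurd (hinj h) (by decide), fun h => absurd (hinj h) (by decide),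
          fun h => absurd (hinj h) (by decide)⟩
      · rintro ⟨h01, h12, h02⟩
        have hinj : Function.Injective (fun j => cl (K.tv t j)) := by
          intro x y hxy
          have hxy' : cl (K.tv t x) = cl (K.tv t y) := hxy
          fin_cases x <;> fin_cases y
          · rfl
          · exact absurd hxy' h01
          · exact absurd hxy' h02
          · exact absurd hxy' h01.symm
          · rfl
          · exact absurd hxy' h12
          · exact absurd hxy' h02.symm
          · exact absurd hxy' h12.symm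
          · rfl
        have hbij : Function.Bijective (fun j => cl (K.tv t j)) :=
          Finite.injective_iff_bijective.1 hinj
        refine ⟨(Equiv.ofBijective _ hbij).symm, fun i => ?_⟩
        rw [hcl']
        exact (Equiv.ofBijective _ hbij).apply_symm_apply i
    have h2 : {t | Rain K.tv Z t} = ((Finset.univ.filter (fun t : T =>
        (cl (K.tv t 0) ≠ cl (K.tv t 1) ∧ cl (K.tv t 1) ≠ cl (K.tv t 2) ∧
        cl (K.tv t 0) ≠ cl (K.tv t 2)))) : Set T) := by
      ext t
      simp only [Set.mem_ofPred_eq, Finset.coe_filter, Finset.mem_univ, true_and]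
      exact h1 t
    rw [h2, Set.ncard_coe_finset, Finset.card_filter]
    rfl
  rw [hR]
  have he := hK.euler
  have p0 := hpart 0
  have p1 := hpart 1
  have p2 := hpart 2
  rw [hX, hT, hE] at p0 p1 p2
  rw [hXs, hTs, hEs, Fin.sum_univ_three, Fin.sum_univ_three, Fin.sum_univ_three] at he
  rw [hW2] at hW
  generalize (∑ t : T, ra (fun j => cl (K.tv t j))) = R at *
  generalize (∑ t : T, b (fun j => cl (K.tv t j))) = B at *
  generalize (∑ a : E, if cl (K.e a 0) = cl (K.e a 1) then 0 else 1) = M at *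
  constructor
  · rw [Nat.even_iff]
    omega
  · omega

end Pool.Agent.W370.PS
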